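import Pool.Agent.MWKP.Stmts

/-!
# MWKP, row ST1: one step, the insertion is allowed in both words
-/

namespace Pool.Agent.MWKP.H62

open Pool.Agent.Helper14_MV Pool.Agent.Helper2_MV Pool.Agent.MWK Pool.Agent.MWKP

/-- the condition `CX` in both words -/
theorem cxl {m x y : ℕ} {u v : List ℕ} (hA : Ag (FF m v) u v)
    (h : 2 ≤ (pre u y).count x ∨ 2 ≤ (pre v y).count x ∨
      (¬ Dp (m + 1) v x ∧ (1 ≤ (pre u y).count x ∨ 1 ≤ (pre v y).count x))) :
    CX m u y x ∧ CX m v y x := by
  have hdag := T.dag m u v hA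
  have tot : 2 ≤ u.count x ∧ 2 ≤ v.count x := by
    have h0 := hA.1 x 0 (by omega)
    have h1 := hA.1 x 1 (by omega)
    have hu := count_pre_le u x y
    have hv := count_pre_le v x y
    rcases h with h | h | ⟨hd, h⟩
    · omega
    · omega
    · have : v.count x ≠ 1 := fun h => hd (Dp.simple h)
      omega
  have wall : ∀ t, Dp m v t → y ∈ pre u t → y ∈ pre v t →
      2 ≤ (pre u t).count x ∧ 2 ≤ (pre v t).count x := by
    intro t ht hyu hyv
    have h0 := hA.2 t x 0 (by omega) ht
    have h1 := hA.2 t x 1 (by omega) ht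
    have hu := count_pre_mono hyu x
    have hv := count_pre_mono hyv x
    rcases h with h | h | ⟨hd, h⟩
    · omega
    · omega
    · have : (pre v t).count x ≠ 1 := fun h => hd (Dp.step ht h)
      omega
  constructor
  · refine ⟨tot.1, fun t ht hy => ?_⟩
    have ht' : Dp m v t := (hdag m (by omega) t).1 ht
    exact (wall t ht' hy ((hA.mem_pre (F := FF m v) ht').1 hy)).1
  · refine ⟨tot.2, fun t ht hy => ?_⟩
    exact (wall t ht ((hA.mem_pre (F := FF m v) ht).2 hy) hy).2

/-- row ST1 -/
theorem st1 (hInb : InbStmt) (hInd : IndStmt) (hIna : InaStmt) : St1Stmt := by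
  intro n θ hK m j hj1 hj2 hL u v x y hAg hM
  obtain ⟨hDy, hne⟩ := hM
  have hn : 1 ≤ n := hK.pos
  -- the difference
  have hdiff : (¬ (1 ≤ (pre u y).count x ↔ 1 ≤ (pre v y).count x)) ∨
      (¬ (2 ≤ (pre u y).count x ↔ 2 ≤ (pre v y).count x)) := by
    by_contra hcon
    apply hne
    intro i hi
    have : i = 0 ∨ i = 1 := by omega
    rcases this with rfl | rfl
    · omega
    · omega
  -- the part which is common to all types
  have main : Ag (FF m v) u v → (∀ k ≤ m + 1, ∀ z, Dp k u z ↔ Dp k v z) →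
      ¬ Dp m v y → y ∈ u ∧ y ∈ v ∧ ¬ Dp m u y := by
    intro hA hdag hny
    have hyv : y ∈ v := hDy.mem
    exact ⟨(hA.mem y).2 hyv, hyv, fun h => hny ((hdag m (by omega) y).1 h)⟩
  match j, hj1, hj2, hL, hAg with
  | 1, _, _, hL, hAg =>
    have hAg' : Ag (FB m v) u v := hAg
    have hA : Ag (FF m v) u v := hAg'.weaken (fun y x i h => Or.inl h)
    have hdag := T.dag m u v hA
    have hny : ¬ Dp m v y := by
      intro h
      apply hne
      intro i hi
      exact hA.2 y x i hi h
    obtain ⟨hyu, hyv, hnyu⟩ := main hA hdag hny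
    have h0 : Dp (m + 1) v x → (1 ≤ (pre u y).count x ↔ 1 ≤ (pre v y).count x) := by
      intro hx
      exact hAg'.2 y x 0 (by omega) (Or.inr ⟨hDy, hx, rfl⟩)
    have hcx : CX m u y x ∧ CX m v y x := by
      apply cxl hA
      by_cases hx : Dp (m + 1) v x
      · have := h0 hx
        omega
      · rcases hdiff with hd | hd
        · right; right
          exact ⟨hx, by omega⟩
        · omega
    refine ⟨hcx.1, hcx.2, ?_, 2 * n, Dvd.intro_left 2 rfl, by omega, by omega, ?_, ?_⟩
    · by_cases hx : Dp (m + 1) v x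
      · left
        have := h0 hx
        rw [← List.count_pos_iff, ← List.count_pos_iff]
        omega
      · exact Or.inr hx
    · exact hInb n θ hK m u x y hL hyu hnyu hcx.1
    · exact hInb n θ hK m v x y hL hyv hny hcx.2
  | e + 2, _, hj2, hL, hAg =>
    have hAg' : Ag (FD m (e + 1) v) u v := hAg
    have hA : Ag (FF m v) u v := hAg'.weaken (fun y x i h => Or.inl h)
    have hdag := T.dag m u v hA
    have hny : ¬ Dp m v y := by
      intro h
      apply hne
      intro i hi
      exact hA.2 y x i hi h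
    obtain ⟨hyu, hyv, hnyu⟩ := main hA hdag hny
    have h0 : 1 ≤ (pre u y).count x ↔ 1 ≤ (pre v y).count x :=
      hAg'.2 y x 0 (by omega) (Or.inr ⟨hDy, Or.inl rfl⟩)
    have hdx : ¬ Dp (e + 1) v x := by
      intro hx
      have h1 : 2 ≤ (pre u y).count x ↔ 2 ≤ (pre v y).count x :=
        hAg'.2 y x 1 (by omega) (Or.inr ⟨hDy, Or.inr hx⟩)
      omega
    have hdxu : ¬ Dp (e + 1) u x := fun h => hdx ((hdag (e + 1) (by omega) x).1 h)
    have hcx : CX m u y x ∧ CX m v y x := by
      apply cxl hA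
      omega
    have hxu : x ∈ pre u y := by
      rw [← List.count_pos_iff]
      omega
    have hxv : x ∈ pre v y := by
      rw [← List.count_pos_iff]
      omega
    refine ⟨hcx.1, hcx.2, Or.inl ⟨hxu, hxv⟩, n, dvd_rfl, by omega, by omega, ?_⟩
    by_cases hem : e + 1 ≤ m
    · have hL' : WDn n m (e + 1) θ := by
        have h : (if e + 1 ≤ m then WDn n m (e + 1) θ else WAn n m θ) := hL
        rwa [if_pos hem] at h
      exact ⟨hInd n θ hK m (e + 1) u x y (by omega) hem hL' hyu hxu hnyu hdxu hcx.1,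
        hInd n θ hK m (e + 1) v x y (by omega) hem hL' hyv hxv hny hdx hcx.2⟩
    · have hL' : WAn n m θ := by
        have h : (if e + 1 ≤ m then WDn n m (e + 1) θ else WAn n m θ) := hL
        rwa [if_neg hem] at h
      have he : e = m := by omega
      subst he
      exact ⟨hIna n θ hK e u x y hL' hyu hxu hnyu hdxu hcx.1,
        hIna n θ hK e v x y hL' hyv hxv hny hdx hcx.2⟩

end Pool.Agent.MWKP.H62
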