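import Pool.Agent.MWKP.StmtsN
import Pool.Agent.Helper45_MWK.NMD

/-!
# MWKP, row NDN (MP_23468a_al): the property PD is preserved (the twin of NMD for period `n`)

The proof is the one of helper45 for row NMD of block MWK; only one step is different.
-/

namespace Pool.Agent.MWKP.H62

open Pool.Agent.Helper14_MV Pool.Agent.Helper2_MV
open Pool.Agent.MWF (Ap gaml)
open Pool.Agent.MWK Pool.Agent.MWKP

theorem ndn (hpow : PwnStmt) (hctt : CtnStmt) (hnty : NtnStmt) : NdnStmt := by
  intro n β hG hE w w' h hPD
  obtain ⟨hlw, ⟨k, hk, hf1⟩, ⟨l, hl, hf0⟩⟩ := hPD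
  have hc' : ∀ c ∈ w', c = 0 ∨ c = 1 ∨ c = 2 ∨ c = 3 :=
    fun c hc => hlw c ((hctt n β hG w w' h c).1.2 hc)
  have r1 : RR β (0 :: 2 :: (List.replicate k 0 ++ [3])) (w'.filter (fun c => decide (c ≠ 1))) := by
    have := h.filter (fun c => decide (c ≠ 1))
    rw [hf1] at this
    exact this
  -- filter `c ≠ 3`
  obtain ⟨a, ha, hwa⟩ : ∃ a, 1 ≤ a ∧ (w'.filter (fun c => decide (c ≠ 1))).filter
      (fun c => decide (c ≠ 3)) = 0 :: 2 :: List.replicate a 0 := by
    have r2 := r1.filter (fun c => decide (c ≠ 3))
    have e : (0 :: 2 :: (List.replicate k 0 ++ [3])).filter (fun c => decide (c ≠ 3)) =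
        0 :: 2 :: List.replicate k 0 := by
      simp [List.filter_cons, List.filter_append]
    rw [e] at r2
    exact hnty n β hG 0 2 (by decide) k _ hk r2
  have hc3 : (w'.filter (fun c => decide (c ≠ 1))).count 3 = 1 := by
    refine (hctt n β hG _ _ r1 3).2.1 ?_
    simp [List.count_cons, List.count_append, List.count_replicate]
  obtain ⟨A, B, hAB, hA3⟩ := List.eq_append_cons_of_mem
    (List.count_pos_iff.1 (by omega : 0 < (w'.filter (fun c => decide (c ≠ 1))).count 3))
  have hB3 : 3 ∉ B := by
    intro hm
    have h1 := List.count_pos_iff.2 hm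
    rw [hAB, List.count_append, List.count_cons] at hc3
    simp at hc3
    omega
  have fA : A.filter (fun c => decide (c ≠ 3)) = A := by
    rw [List.filter_eq_self]
    intro c hc
    rw [decide_eq_true_eq]
    rintro rfl
    exact hA3 hc
  have fB : B.filter (fun c => decide (c ≠ 3)) = B := by
    rw [List.filter_eq_self]
    intro c hc
    rw [decide_eq_true_eq]
    rintro rfl
    exact hB3 hc
  have hABe : A ++ B = 0 :: 2 :: List.replicate a 0 := by
    rw [hAB, List.filter_append, List.filter_cons, fA, fB] at hwa
    simpa using hwa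
  have hBnil : B = [] := by
    by_contra hne
    apply hE
    -- letters of `A ++ B` are 0 or 2
    have hlet : ∀ c ∈ A ++ B, c = 0 ∨ c = 2 := by
      intro c hc
      rw [hABe] at hc
      rcases List.mem_cons.1 hc with h1 | h1
      · exact Or.inl h1
      · rcases List.mem_cons.1 h1 with h2 | h2
        · exact Or.inr h2
        · exact Or.inl (List.eq_of_mem_replicate h2)
    have fA2 : A.filter (fun c => decide (c ≠ 2)) =
        List.replicate (A.filter (fun c => decide (c ≠ 2))).length 0 := by
      rw [List.eq_replicate_iff]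
      refine ⟨rfl, fun c hc => ?_⟩
      rw [List.mem_filter, decide_eq_true_eq] at hc
      exact (hlet c (List.mem_append_left _ hc.1)).resolve_right hc.2
    have fB2 : B.filter (fun c => decide (c ≠ 2)) =
        List.replicate (B.filter (fun c => decide (c ≠ 2))).length 0 := by
      rw [List.eq_replicate_iff]
      refine ⟨rfl, fun c hc => ?_⟩
      rw [List.mem_filter, decide_eq_true_eq] at hc
      exact (hlet c (List.mem_append_right _ hc.1)).resolve_right hc.2
    have h0B : 0 ∈ B := by
      have h1 : (A ++ B).getLast? = some 0 := by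
        rw [hABe, show (0 :: 2 :: List.replicate a 0 : List ℕ) =
          [0, 2] ++ List.replicate a 0 from rfl]
        rw [List.getLast?_append_of_ne_nil _ (by
          intro h0
          have := congrArg List.length h0
          simp at this
          omega)]
        rw [List.getLast?_replicate, if_neg (by omega)]
      rw [List.getLast?_append_of_ne_nil _ hne] at h1
      exact List.mem_of_getLast? h1
    have hc1 : 1 ≤ (B.filter (fun c => decide (c ≠ 2))).length := by
      have : 0 ∈ B.filter (fun c => decide (c ≠ 2)) := by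
        rw [List.mem_filter]
        exact ⟨h0B, by decide⟩
      exact List.length_pos_of_mem this
    have r3 := r1.filter (fun c => decide (c ≠ 2))
    have e2 : (A ++ 3 :: B).filter (fun c => decide (c ≠ 2)) =
        A.filter (fun c => decide (c ≠ 2)) ++ 3 :: B.filter (fun c => decide (c ≠ 2)) := by
      rw [List.filter_append, List.filter_cons]
      rfl
    rw [hAB, e2, fA2, fB2] at r3
    have e : (0 :: 2 :: (List.replicate k 0 ++ [3])).filter (fun c => decide (c ≠ 2)) =
        List.replicate (k + 1) 0 ++ [3] := by
      simp [List.filter_cons, List.filter_append, List.replicate_succ]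
    rw [e] at r3
    generalize (A.filter (fun c => decide (c ≠ 2))).length = b at r3
    generalize (B.filter (fun c => decide (c ≠ 2))).length = c at r3 hc1
    have r4 : RR β (List.replicate (k + 1) 0 ++ [3]) (List.replicate b 0 ++ 3 :: List.replicate c 0) :=
      r3
    have r5 := r4.sub (fun d => if d = 3 then [1] else [0])
    have e0 : ∀ m : ℕ, (List.replicate m 0).flatMap (fun d => if d = 3 then [1] else [0]) =
        List.replicate m 0 := by
      intro m
      induction m with
      | zero => rfl
      | succ m ih => rw [List.replicate_succ, List.flatMap_cons, ih]; rfl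
    rw [List.flatMap_append, List.flatMap_append, List.flatMap_cons, List.flatMap_cons, e0, e0,
      e0] at r5
    have r6 : RR β (List.replicate (k + 1) 0 ++ [1])
        (List.replicate b 0 ++ ([1] ++ List.replicate c 0)) := r5
    have hn : 1 ≤ n := hG.pos
    have r7 : RR β (List.replicate (2 + (n - 1) * (k + 1)) 0 ++ (List.replicate (k + 1) 0 ++ [1]))
        (List.replicate (2 + (n - 1) * (k + 1)) 0 ++
          (List.replicate b 0 ++ ([1] ++ List.replicate c 0))) :=
      (RR.refl _).append r6
    have r8 : RR β (List.replicate (2 + (n - 1) * (k + 1)) 0 ++ (List.replicate (k + 1) 0 ++ [1]))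
        ([0, 0] ++ [1]) := by
      rw [← List.append_assoc]
      refine RR.append ?_ (RR.refl [1])
      rw [show ([0, 0] : List ℕ) = List.replicate 2 0 from rfl, ← List.replicate_add]
      refine hpow n β hG.per 0 _ 2 (by omega) (le_refl 2) ?_
      have e9 : 2 + (n - 1) * (k + 1) + (k + 1) = 2 + n * (k + 1) := by
        obtain ⟨n', rfl⟩ : ∃ n', n = n' + 1 := ⟨n - 1, by omega⟩
        rw [Nat.add_sub_cancel]
        ring
      rw [e9]
      simp [Nat.ModEq]
    have r9 : RR β ([0, 0] ++ [1]) (List.replicate (2 + (n - 1) * (k + 1)) 0 ++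
          (List.replicate b 0 ++ ([1] ++ List.replicate c 0))) := β.trans r8.symm r7
    have r10 : RR β (List.replicate (2 + (n - 1) * (k + 1)) 0 ++
          (List.replicate b 0 ++ ([1] ++ List.replicate c 0)))
        ((List.replicate (2 + (n - 1) * (k + 1)) 0 ++
          (List.replicate b 0 ++ ([1] ++ List.replicate c 0))) ++ List.replicate n 0) := by
      have e1 : List.replicate (2 + (n - 1) * (k + 1)) 0 ++
          (List.replicate b 0 ++ ([1] ++ List.replicate c 0)) =
          List.replicate (1 + (n - 1) * (k + 1) + b) 0 ++ ([0, 1, 0] ++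
            List.replicate (c - 1) 0) := by
        rw [← List.append_assoc, ← List.replicate_add,
          show 2 + (n - 1) * (k + 1) + b = (1 + (n - 1) * (k + 1) + b) + 1 by omega,
          List.replicate_add (1 + (n - 1) * (k + 1) + b) 1, List.append_assoc]
        congr 1
        obtain ⟨c', rfl⟩ : ∃ c', c = c' + 1 := ⟨c - 1, by omega⟩
        simp [List.replicate_succ]
      have e2 : (List.replicate (2 + (n - 1) * (k + 1)) 0 ++
          (List.replicate b 0 ++ ([1] ++ List.replicate c 0))) ++ List.replicate n 0 =
          List.replicate (1 + (n - 1) * (k + 1) + b) 0 ++ ((0 :: 1 :: List.replicate (n + 1) 0) ++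
            List.replicate (c - 1) 0) := by
        rw [e1, List.append_assoc, List.append_assoc, ← List.replicate_add]
        congr 1
        show 0 :: 1 :: 0 :: List.replicate (c - 1 + n) 0 =
          0 :: 1 :: (List.replicate (n + 1) 0 ++ List.replicate (c - 1) 0)
        rw [← List.replicate_add, ← List.replicate_succ]
        congr 3
        omega
      rw [e2, e1]
      exact (RR.refl _).append (hG.gm.append (RR.refl _))
    have r11 : RR β (([0, 0] ++ [1]) ++ List.replicate n 0)
        ((List.replicate (2 + (n - 1) * (k + 1)) 0 ++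
          (List.replicate b 0 ++ ([1] ++ List.replicate c 0))) ++ List.replicate n 0) :=
      r9.append (RR.refl _)
    exact β.trans r9 (β.trans r10 r11.symm)
  have hw1 : w'.filter (fun c => decide (c ≠ 1)) = 0 :: 2 :: (List.replicate a 0 ++ [3]) := by
    rw [hBnil, List.append_nil] at hABe
    rw [hAB, hBnil, hABe]
    rfl
  refine ⟨hc', ⟨a, ha, hw1⟩, ?_⟩
  -- part (2)
  have s1 : RR β (1 :: 2 :: 3 :: List.replicate l 1) (w'.filter (fun c => decide (c ≠ 0))) := by
    have := h.filter (fun c => decide (c ≠ 0))
    rw [hf0] at this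
    exact this
  obtain ⟨p, hp, hwp⟩ : ∃ p, 1 ≤ p ∧ (w'.filter (fun c => decide (c ≠ 0))).filter
      (fun c => decide (c ≠ 3)) = 1 :: 2 :: List.replicate p 1 := by
    have r2 := s1.filter (fun c => decide (c ≠ 3))
    have e : (1 :: 2 :: 3 :: List.replicate l 1).filter (fun c => decide (c ≠ 3)) =
        1 :: 2 :: List.replicate l 1 := by
      simp [List.filter_cons]
    rw [e] at r2
    exact hnty n β hG 1 2 (by decide) l _ hl r2
  obtain ⟨q, hq, hwq⟩ : ∃ q, 1 ≤ q ∧ (w'.filter (fun c => decide (c ≠ 0))).filter
      (fun c => decide (c ≠ 2)) = 1 :: 3 :: List.replicate q 1 := by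
    have r2 := s1.filter (fun c => decide (c ≠ 2))
    have e : (1 :: 2 :: 3 :: List.replicate l 1).filter (fun c => decide (c ≠ 2)) =
        1 :: 3 :: List.replicate l 1 := by
      simp [List.filter_cons]
    rw [e] at r2
    exact hnty n β hG 1 3 (by decide) l _ hl r2
  have hw01 : (w'.filter (fun c => decide (c ≠ 0))).filter (fun c => decide (c ≠ 1)) = [2, 3] := by
    rw [List.filter_filter]
    have e1 : w'.filter (fun a => decide (a ≠ 1) && decide (a ≠ 0)) =
        (w'.filter (fun c => decide (c ≠ 1))).filter (fun c => decide (c ≠ 0)) := by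
      rw [List.filter_filter]
      refine List.filter_congr (fun c _ => ?_)
      rw [Bool.and_comm]
    rw [e1, hw1]
    simp [List.filter_cons, List.filter_append]
  refine ⟨q, hq, Pool.Agent.MWK.H45.three _ ?_ p q hwp hwq hw01⟩
  intro c hc
  rw [List.mem_filter, decide_eq_true_eq] at hc
  exact (hc' c hc.1).resolve_left hc.2

end Pool.Agent.MWKP.H62
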